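import Pool.Agent.H51BS.KTheory

/-!
# The Bass conjecture in degrees above the dimension and rational function fields
-/

set_option autoImplicit false

namespace Pool.Agent.Results.MP_e17fa799_al.DegreesAboveDimension

open Pool.Agent.H51BS

/-- For all primes `p` and `n > d ≥ 0` the following are equivalent:

1. `K'_n(X)` is finitely generated for all regular `X`, of finite type and of dimension at most `d`
   over `𝔽_p`;
2. `K'_n(X)` is finite for all `X`, of finite type and of dimension at most `d` over `𝔽_p`;
3. `K_{n+1}(𝔽_p(t₁, …, t_{d+1})) ⊗ ℚ` is finite dimensional;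
4. `K_{n+1}(𝔽_p(t₁, …, t_{d+1})) ⊗ ℚ = 0`;
5. `K_n(E) ⊗ ℚ = 0` for all fields `E` of transcendence degree at most `d` over `𝔽_p`. -/
theorem result (M : QuillenTheory) (p : ℕ) [Fact p.Prime] (n : ℤ) (d : ℕ) (hn : (d : ℤ) < n) :
    [RegularFG M p n d, AllFiniteK M p n d, RationalFiniteK M p n d, RationalZeroK M p n d,
      FieldsZeroK M p n d].TFAE :=
  main_K M p n d hn

end Pool.Agent.Results.MP_e17fa799_al.DegreesAboveDimension
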