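import Pool.Agent.Q27.BG.Fin
import Pool.Agent.Q54.CU.Trip

/-!
# The Bass conjecture for schemes of bounded dimension and tensors

The finite generation of the groups `K'_n(X)` for the regular schemes `X` of finite type over `ℤ` of
dimension at most `D` is equivalent to its case of the hypersurfaces `∑_{(i, j, k) ∈ H} x_i y_j z_k = 1`
of the tripartite hypergraphs `H` with `D + 1` vertices in the third class over `ℤ`, and with `D + 2`
vertices in the third class over the prime fields `𝔽_p`; the first two classes are arbitrary. For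
`D = 1` the groups are finitely generated, by theorems of Quillen and Harder.
-/

set_option autoImplicit false

namespace Pool.Agent.Results.MP_e17fa799_al.TensorsAndDimension

open CategoryTheory AlgebraicGeometry NumberField
open Pool.Agent.Y116.UV Q54.CU Q54.ZE Pool.Agent.Q27.BG

section

variable (P : Sch ℤ → Prop)

/-- `P` is true for all regular schemes of finite type over `ℤ` of dimension at most `D`. -/
def RegDim (D : ℕ) : Prop :=
  ∀ X : Sch ℤ, FT False X → IsRegularSch X.left → topologicalKrullDim X.left ≤ D → P X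

/-- `P` is true for all schemes of finite type over `ℤ` of dimension at most `D`. -/
def AllDim (D : ℕ) : Prop :=
  ∀ X : Sch ℤ, FT False X → topologicalKrullDim X.left ≤ D → P X

/-- `P` is true for all regular schemes of finite type over `ℤ` whose fibres have dimension at most
`d`. -/
def RegFib (d : ℕ) : Prop :=
  ∀ X : Sch ℤ, FT False X → IsRegularSch X.left → FibLE d (X := X.left) X.hom → P X

/-- `P` is true for all schemes of finite type over `ℤ` whose fibres have dimension at most `d`. -/
def AllFib (d : ℕ) : Prop :=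
  ∀ X : Sch ℤ, FT False X → FibLE d (X := X.left) X.hom → P X

/-- `P` is true for the hypersurfaces `∑_{(i, j, k) ∈ H} x_i y_j z_k = 1` over `ℤ`, where `H` is any
set of triples with `k < c`. -/
def GraphZ (c : ℕ) : Prop := ∀ (a b : ℕ) (H : Finset (Fin a × Fin b × Fin c)), P (tripS ℤ H)

/-- `P` is true for the hypersurfaces `∑_{(i, j, k) ∈ H} x_i y_j z_k = 1` over the fields `𝔽_p`, where
`H` is any set of triples with `k < c`. -/
def GraphF (c : ℕ) : Prop :=
  ∀ (p : ℕ) [Fact p.Prime] (a b : ℕ) (H : Finset (Fin a × Fin b × Fin c)),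
    P (aff ℤ (Trip (ZMod p) H))

/-- `P` is true for the hypersurfaces `T(x, y, z) = 1` over `ℤ`, where `T` is any trilinear form over
`ℤ` with at most `c` variables in one of the three blocks. -/
def BlockZ (c : ℕ) : Prop :=
  ∀ (l m n : ℕ) (T : Fin l → Fin m → Fin n → ℤ), l ≤ c ∨ m ≤ c ∨ n ≤ c → P (hypS T)

/-- `P` is true for the hypersurfaces `T(x, y, z) = 1`, where `T` is any trilinear form over a finite
field with at most `c` variables in one of the three blocks. -/
def BlockF (c : ℕ) : Prop :=
  ∀ (k : Type) [Field k] [Finite k] (l m n : ℕ) (T : Fin l → Fin m → Fin n → k),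
    l ≤ c ∨ m ≤ c ∨ n ≤ c → P (aff ℤ (Hyp T))

/-- `P` is true for the rings of integers of number fields (Quillen), for the finite fields (Quillen)
and for the smooth algebras over `𝔽_p` of dimension at most one (Harder, Quillen). -/
def Known : Prop :=
  (∀ (K : Type) [Field K] [NumberField K], P (aff ℤ (𝓞 K))) ∧
    (∀ (k : Type) [Field k] [Finite k], P (aff ℤ k)) ∧
      ∀ (p : ℕ) [Fact p.Prime] (A : Type) [CommRing A] [Algebra (ZMod p) A]
        [Algebra.Smooth (ZMod p) A], ringKrullDim A ≤ 1 → P (aff ℤ A)

end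

/-- **The conjecture of Bass in dimension at most `D` and trilinear forms.** -/
theorem result (G : ℕ → Sch ℤ → Type) [∀ n X, AddCommGroup (G n X)] (hG : IsKTheory ℤ G) :
    (∀ D : ℕ, List.TFAE
      [RegDim (AllFG G) D, AllDim (AllFG G) D, GraphZ (AllFG G) (D + 1) ∧ GraphF (AllFG G) (D + 2),
        BlockZ (AllFG G) (D + 1) ∧ BlockF (AllFG G) (D + 2)]) ∧
    (∀ d : ℕ, List.TFAE [RegFib (AllFG G) d, AllFib (AllFG G) d, GraphZ (AllFG G) (d + 2)]) ∧
    (Known (AllFG G) → BlockZ (AllFG G) 2 ∧ BlockF (AllFG G) 3) ∧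
    (∀ (l m n : ℕ) (T : Fin l → Fin m → Fin n → ℤ), IsRegularSch (hypS T).left) ∧
    ∀ (k : Type) [Field k] (l m n : ℕ) (T : Fin l → Fin m → Fin n → k),
      IsRegularSch (aff ℤ (Hyp T)).left := by
  have hP := bnd_fg hG
  refine ⟨fun D => dim_main hP D, fun d => ?_, fun ⟨hO, hF, hC⟩ => ?_,
    fun _ _ _ T => reg_hypS T, fun k _ _ _ _ T => reg_hypS T⟩
  · have h := fib_main hP d
    tfae_have 1 → 2 := (h.out 0 1).1
    tfae_have 2 → 3 := (h.out 1 2).1
    tfae_have 3 → 1 := (h.out 2 0).1
    tfae_finish
  · exact ((dim_main hP 1).out 1 3).1 (dim_of_affine hP fun A _ _ _ hA => dim_one hP hO hF hC A hA)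

end Pool.Agent.Results.MP_e17fa799_al.TensorsAndDimension
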