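import Pool.Agent.Q54.CU.KU

/-!
# The Bass conjecture and the hypersurfaces of tripartite hypergraphs

For a finite set `H` of triples `(i, j, k)` let `E_H` be the hypersurface
`∑_{(i, j, k) ∈ H} x_i y_j z_k = 1` in an affine space over `ℤ` (`tripS ℤ H`). All its coefficients are
`1`, and it is an affine scheme, smooth over `ℤ` and regular. We show that the conjecture of Bass on
the finite generation of the groups `K_n(X) = K'_n(X)` of all regular schemes `X` of finite type over
`ℤ`, and its generalization to the groups `K'_n(X)` of all schemes of finite type, are equivalent to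
the finite generation of the groups `K_n(E_H)` for all `H`; and that the groups `K'_n(X)` with `n ≤ N`
of all schemes of finite type are finitely generated if the groups `K_n(E_H)` with `n ≤ N + 1` are.

The geometric part (the library `Pool.Agent.Y116.UV`) says that a property of schemes of finite type
over `ℤ` which is closed under closed-open decompositions, under the affine bundles of Jouanolou and
under passing from `X × 𝔾_m` to `X` is true for all of them if it is true for the affine spaces and
for the hypersurfaces `E_H`.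
-/

namespace Pool.Agent.Results.MP_e17fa799_al.TripartiteHypergraphs

open Q54.CU CategoryTheory AlgebraicGeometry Pool.Agent.Y116.UV

/-- **The conjecture of Bass is equivalent to its case of the hypersurfaces of tripartite
hypergraphs.** -/
theorem result (G : ℕ → Sch ℤ → Type) [∀ n X, AddCommGroup (G n X)] (hG : IsKTheory ℤ G) :
    List.TFAE
      [∀ X : Sch ℤ, FT False X → IsRegularSch X.left → ∀ n, AddGroup.FG (G n X),
        ∀ X : Sch ℤ, FT False X → ∀ n, AddGroup.FG (G n X),
        ∀ (a b c : ℕ) (H : Finset (Fin a × Fin b × Fin c)), ∀ n, AddGroup.FG (G n (tripS ℤ H))] ∧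
    (∀ N : ℕ, (∀ (a b c : ℕ) (H : Finset (Fin a × Fin b × Fin c)), ∀ n ≤ N + 1,
        AddGroup.FG (G n (tripS ℤ H))) → ∀ X : Sch ℤ, FT False X → ∀ n ≤ N, AddGroup.FG (G n X)) ∧
    ∀ (a b c : ℕ) (H : Finset (Fin a × Fin b × Fin c)),
      FT False (tripS ℤ H) ∧ IsRegularSch (tripS ℤ H).left ∧ Smooth (tripS ℤ H).hom := by
  have hft : ∀ (a b c : ℕ) (H : Finset (Fin a × Fin b × Fin c)), FT False (tripS ℤ H) :=
    fun a b c H => ft_aff False
  have hst : ∀ N : ℕ, (∀ (a b c : ℕ) (H : Finset (Fin a × Fin b × Fin c)), ∀ n ≤ N + 1,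
      AddGroup.FG (G n (tripS ℤ H))) → ∀ X : Sch ℤ, FT False X → ∀ n ≤ N, AddGroup.FG (G n X) :=
    fun N h X hX => universal2_int (fun x => ⟨x, Int.cast_id⟩) (uni2_fg hG N) h X hX
  refine ⟨?_, hst, fun a b c H => ⟨hft a b c H, regular_trip H, ?_⟩⟩
  · tfae_have 1 → 3 := fun h a b c H n => h _ (hft a b c H) (regular_trip H) n
    tfae_have 3 → 2 := fun h X hX n => hst n (fun a b c H m _ => h a b c H m) X hX n le_rfl
    tfae_have 2 → 1 := fun h X hX _ n => h X hX n
    tfae_finish
  · change Smooth (Spec.map (CommRingCat.ofHom (algebraMap ℤ (Trip ℤ H))))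
    rw [HasRingHomProperty.Spec_iff (P := @Smooth)]
    exact RingHom.smooth_algebraMap.2 (trip_smooth H)

end Pool.Agent.Results.MP_e17fa799_al.TripartiteHypergraphs
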